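import Pool.Agent.Helper95.TF.Fin
import Pool.Agent.Helper47.BC.M_C1
import Pool.Agent.Helper82.BC.M_C2
import Pool.Agent.Helper83.BC.M_C3
import Pool.Agent.Helper83.BC.M_C4
import Pool.Agent.Helper82.BC.M_C5
import Pool.Agent.Helper82.BC.M_C6
import Pool.Agent.Helper63.BC.M_C7
import Pool.Agent.Helper45.BC.M_C8
import Pool.Agent.Helper70.BC.M_C9
import Pool.Agent.Helper75.BC.M_C10
import Pool.Agent.Helper70.BC.M_C11
import Pool.Agent.Helper75.BC.M_C12
import Pool.Agent.Helper26.BC.M_C13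
import Pool.Agent.Helper75.BC.M_WB

/-!
# Project BC: all modules together
-/

set_option autoImplicit false

namespace Pool.Agent.Helper96.BC

open Pool.Agent.Helper95.TT

theorem pA2 : StA2 := Pool.Agent.Helper95.TF.a2
theorem pC1 : StC1 := Pool.Agent.Helper47.BC.hC1
theorem pC2 : StC2 := Pool.Agent.Helper82.BC.hC2 pA2 pC1
theorem pC3 : StC3 := Pool.Agent.Helper83.BC.hC3
theorem pC4 : StC4 := Pool.Agent.Helper83.BC.hC4 pC3
theorem pC5 : StC5 := Pool.Agent.Helper82.BC.hC5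
theorem pC6 : StC6 := Pool.Agent.Helper82.BC.hC6 pA2 pC2 pC4 pC5
theorem pC7 : StC7 := Pool.Agent.Helper63.BC.hC7
theorem pC8 : StC8 := Pool.Agent.Helper45.BC.hC8 pA2 pC1 pC2 pC6 pC7
theorem pC9 : StC9 := Pool.Agent.Helper70.BC.hC9
theorem pWB : StWB := Pool.Agent.Helper75.BC.hWB
theorem pC10 : StC10 := Pool.Agent.Helper75.BC.hC10 pC8 pC9 pWB
theorem pC11a : StC11a := Pool.Agent.Helper70.BC.hC11a Pool.Agent.Helper95.TF.a10
theorem pC11b : StC11b := Pool.Agent.Helper70.BC.hC11b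
theorem pC12 : StC12 := Pool.Agent.Helper75.BC.hC12 Pool.Agent.Helper95.TF.a4
  Pool.Agent.Helper95.TF.a5 pC1 pC2 pC4 pC5 pC9
theorem pC13 : StC13 := Pool.Agent.Helper26.BC.hC13 pA2 Pool.Agent.Helper95.TF.a5 pC1 pC2 pC6 pC7
  pC9 pC12 pWB

end Pool.Agent.Helper96.BC
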