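import Pool.Agent.Helper95.TT.St

/-!
# Project BC (MP_6090f9_nt): the residue formula under base change and for twists over varying fields

THEOREM 1.  `k` a number field, `b` any real function of the primes `v` of `k` with `|b v - c q_v| ≤ B q_v` (for instance
the trace of Frobenius on `H²` of a smooth projective variety, or its fibre averages for a fibration, by Deligne),
`K_i` extensions of `k` of degree at most `d` such that `K_i ⊗ K_j` is a field for `i ≠ j`, `b_i` a function of the primes of `K_i`,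
equal to `b` at the primes of degree one and `O(q)` at the others (base change to `K_i`): for `s > 2` close to `2`
`∑_i ((s-2) F_i(s) - (s-2) F(s))² ≤ (d-1) B² + ε`.

THEOREM 2.  `C : y² = f(x)`, `C' : y² = g(x)` over `k`, `K_i` of degree at most `d`, `E_i ∈ K_i`, `X_i = C_(E_i) × C'` over `K_i`; if for `i ≠ j`
`K_i ⊗ K_j` is a field in which `E_i ⊗ E_j` is not a square then `∑_i ((s-2) F_(X_i)(s) - 2)² ≤ d B² + ε`, `B = 4 g_C g_(C')`.

METHOD.  `N_K(v)`, the number of primes of degree one of `K` above `v`, has mean one; if `K ⊗ K'` is a field then `N_K N_K'` has mean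
one, so the functions `N_K - 1` are orthogonal in the mean.

Every docstring is a complete proof; `StX` is proved as `theorem hX : StX` (hypotheses = earlier statements, as listed).
Notation `Pr`, `q`, `wt`, `chi`, `pts`, `tr`, `bb`, `Bad`, `StA1`, `StA2`, .. from `Pool/Agent/Helper95/TT/St.lean`.
-/

set_option autoImplicit false

namespace Pool.Agent.Helper96.BC

open NumberField IsDedekindDomain Polynomial Filter Topology
open Pool.Agent.Helper95.TT
open scoped Classical TensorProduct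

noncomputable section

/-- `w` lies above `v` -/
def Above {k K : Type} [Field k] [NumberField k] [Field K] [NumberField K] [Algebra k K]
    (w : Pr K) (v : Pr k) : Prop :=
  w.asIdeal.comap (algebraMap (𝓞 k) (𝓞 K)) = v.asIdeal

/-- `w` is a prime of degree one above `v` -/
def Deg1 {k K : Type} [Field k] [NumberField k] [Field K] [NumberField K] [Algebra k K]
    (w : Pr K) (v : Pr k) : Prop :=
  Above w v ∧ q w = q v

/-- number of primes of degree one of `K` above `v` -/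
def N1 {k : Type} (K : Type) [Field k] [NumberField k] [Field K] [NumberField K] [Algebra k K]
    (v : Pr k) : ℕ :=
  Nat.card {w : Pr K // Deg1 w v}

/-- sum of `β` over the primes of degree one above `v` -/
def S1 {k K : Type} [Field k] [NumberField k] [Field K] [NumberField K] [Algebra k K]
    (β : Pr K → ℝ) (v : Pr k) : ℝ :=
  ∑ᶠ w : {w : Pr K // Deg1 w v}, β w

/-- the function `F` of the problem for the numbers `b w`, without the primes in `R` -/
def FK {K : Type} [Field K] [NumberField K] (R : Set (Pr K)) (b : Pr K → ℝ) (s : ℝ) : ℝ :=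
  ∑' w : Pr K, if w ∈ R then 0 else b w * Real.log (q w) * (q w : ℝ) ^ (-s)

/-- `M` is the field `K ⊗ K'` -/
def IsTP (k K K' M : Type) [Field k] [Field K] [Field K'] [Field M] [Algebra k K] [Algebra k K']
    [Algebra K M] [Algebra K' M] : Prop :=
  ∃ e : (K ⊗[k] K') ≃+* M, ∀ (x : K) (y : K'), e (x ⊗ₜ[k] y) = algebraMap K M x * algebraMap K' M y

/-! ## Primes of degree one -/

/-- **C1** (sizes).
PROOF.  (i) `w ∩ 𝓞 k` is a prime, not zero because `𝓞 K` is integral over `𝓞 k` (`Ideal.comap_ne_bot_of_algebraic_mem` /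
`IsIntegralClosure`-type lemmas), and an element of `Pr` is determined by its ideal.  (ii) `q w = q v ^ f` with the inertia
degree `f ≥ 1` (`Ideal.absNorm_eq_pow_inertiaDeg'`).  (iii) the primes above `v` are `Ideal.primesOver`; their number is at
most `∑ e f = [K : k]` (`Ideal.sum_ramification_inertia`).  (iv) `v.asIdeal ≠ ⊤` and `≠ ⊥`. -/
def StC1 : Prop := ∀ (k K : Type) [Field k] [NumberField k] [Field K] [NumberField K] [Algebra k K],
  (∀ w : Pr K, ∃! v : Pr k, Above w v) ∧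
  (∀ (w : Pr K) (v : Pr k), Above w v → q w = q v ∨ q v ^ 2 ≤ q w) ∧
  (∀ v : Pr k, {w : Pr K | Above w v}.Finite ∧
    {w : Pr K | Above w v}.ncard ≤ Module.finrank k K) ∧
  ∀ v : Pr k, 2 ≤ q v

/-- **C2** (only the primes of degree one matter).  Hypotheses: StA2 StC1.
PROOF.  `n = [K : k]`.  `N1 K v ≤ n` (C1), `|S1 β v| ≤ C N1 K v` (a finite sum).  `∑_w |β w| wt s w ≤ C ∑_w wt s w < ∞` (A2 for `K`);
`∑_v |S1 β v| wt s v ≤ C n ∑_v wt s v < ∞`.  Split the primes `w` of `K` into those of degree one above their `v` and the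
others.  For the first `wt s w = wt s v`, and grouped by `v` (`{w // degree one} ≃ Σ v, {w // Deg1 w v}`) their sum is exactly
`∑_v S1 β v wt s v`.  For a `w` of the second kind above `v`: `q w ≥ q v ^ 2 ≥ 4 > e` and `x ↦ log x x^(-s)` is decreasing for
`x ≥ e`, `s ≥ 1` (`Real.log_div_self_rpow_antitoneOn`-type lemma), so `wt s w ≤ 2 log q_v q_v^(-2s) ≤ 2 wt 2 v`; there are at most `n` such `w`
above each `v`, so their sum is at most `M = 2 C n ∑_v wt 2 v`. -/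
def StC2 : Prop := ∀ (k K : Type) [Field k] [NumberField k] [Field K] [NumberField K] [Algebra k K]
  (β : Pr K → ℝ) (C : ℝ), (∀ w, |β w| ≤ C) →
  (∀ v : Pr k, |S1 β v| ≤ C * N1 K v ∧ N1 K v ≤ Module.finrank k K) ∧
  (∀ s : ℝ, 1 < s → Summable (fun w : Pr K => β w * wt s w) ∧
    Summable (fun v : Pr k => S1 β v * wt s v)) ∧
  ∃ M : ℝ, ∀ s : ℝ, 1 < s →
    |∑' w : Pr K, β w * wt s w - ∑' v : Pr k, S1 β v * wt s v| ≤ M

/-- **C3** (primes of degree one are homomorphisms).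
PROOF.  `κ = 𝓞 k / v`.  For `w` with `Deg1 w v` the map `κ → 𝓞 K / w` is well defined and injective (`w ∩ 𝓞 k = v`), between finite
sets with the same number of elements, so bijective; compose `𝓞 K → 𝓞 K / w` with its inverse: an `𝓞 k`-algebra
homomorphism with kernel `w`.  Conversely the kernel of `φ : 𝓞 K → κ` is a prime `w` (`κ` is a field), `w ∩ 𝓞 k = v` (so `w ≠ 0`:
`v ≠ 0` maps injectively), and `𝓞 K / w ≅ κ` as `φ` is surjective, so `q w = q v`.  Two homomorphisms with the same kernel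
are equal: for `x ∈ 𝓞 K` there is `a ∈ 𝓞 k` with `φ x = φ a` (surjectivity of `𝓞 k → κ`), so `x - a ∈ ker φ = ker φ'` and
`φ' x = φ' a = φ a`. -/
def StC3 : Prop := ∀ (k K : Type) [Field k] [NumberField k] [Field K] [NumberField K] [Algebra k K]
  (v : Pr k), ∃ e : {w : Pr K // Deg1 w v} ≃ (𝓞 K →ₐ[𝓞 k] (𝓞 k ⧸ v.asIdeal)),
    ∀ w : {w : Pr K // Deg1 w v}, RingHom.ker (e w) = w.1.asIdeal

/-- **C4** (pairs of primes of degree one).  Hypotheses: StC3.
PROOF.  `μ : 𝓞 K ⊗[𝓞 k] 𝓞 K' → 𝓞 M`, `x ⊗ y ↦ x y` (`Algebra.TensorProduct.productMap`-like).  (a) There is `c ∈ 𝓞 k`, `c ≠ 0`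
(an integer), with `c 𝓞 M ⊆ im μ`: every `z ∈ M` is a finite sum of products `x_i y_i`, `x_i ∈ K`, `y_i ∈ K'` (`e` is surjective), and some
nonzero integer multiple of `x_i`, `y_i` is integral; `𝓞 M` is a finitely generated abelian group.  (b) There is `c' ∈ 𝓞 k`, `c' ≠ 0`,
killing `ker μ`: if `μ t = 0` then `t` maps to `0` in `K ⊗[k] K'` (`e` is injective), which is the localization of `𝓞 K ⊗[𝓞 k] 𝓞 K'` at the
nonzero elements of `𝓞 k` (or of `ℤ`), so `t` is torsion; `ker μ` is a finitely generated module (noetherian).  (Alternatively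
`μ` is injective, by flatness.)  Let `c, c' ∉ v`, so `c`, `c'` are units in `κ = 𝓞 k / v`.  By C3 it suffices that `Φ ↦ (Φ|𝓞 K, Φ|𝓞 K')` is a
bijection from `Hom_(𝓞 k)(𝓞 M, κ)` to the pairs `(φ, φ')` of homomorphisms (then `ker Φ ∩ 𝓞 K = ker φ` etc.).  Injective:
`Φ z = c⁻¹ Φ(c z)` and `c z ∈ im μ`.  Surjective: `λ = φ ⊗ φ' : 𝓞 K ⊗ 𝓞 K' → κ` kills `ker μ` (as `c' λ(t) = 0`); put `Φ z = c⁻¹ λ(t)` for any `t` with
`μ t = c z`.  It is additive and `𝓞 k`-linear; if `μ t = c z`, `μ t' = c z'`, `μ t'' = c z z'` then `μ(t t') = c μ(t'')`, so `λ t λ t' = c λ t''`: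
multiplicative; `Φ(x y) = φ x φ' y`. -/
def StC4 : Prop := ∀ (k K K' M : Type) [Field k] [NumberField k] [Field K] [NumberField K]
  [Field K'] [NumberField K'] [Field M] [NumberField M] [Algebra k K] [Algebra k K'] [Algebra k M]
  [Algebra K M] [Algebra K' M] [IsScalarTower k K M] [IsScalarTower k K' M], IsTP k K K' M →
  {v : Pr k | ¬ ∃ e : {u : Pr M // Deg1 u v} ≃ {w : Pr K // Deg1 w v} × {w : Pr K' // Deg1 w v},
    ∀ u, Above u.1 (e u).1.1 ∧ Above u.1 (e u).2.1}.Finite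

/-- **C5** (the field `K ⊗ K'`).
PROOF.  `M = K ⊗[k] K'` with the field structure `h.toField`, `K → M` and `K' → M` the canonical maps
(`Algebra.TensorProduct.includeLeft`, `includeRight`), `e` the identity; it has characteristic zero (it contains `k`) and is finite
over `k`, hence over `ℚ`.  (To avoid instance problems transport everything to a copy, or use `RingHom.toAlgebra`.) -/
def StC5 : Prop := ∀ (k K K' : Type) [Field k] [NumberField k] [Field K] [NumberField K]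
  [Field K'] [NumberField K'] [Algebra k K] [Algebra k K'], IsField (K ⊗[k] K') →
  ∃ (M : Type) (_ : Field M) (_ : NumberField M) (_ : Algebra k M) (_ : Algebra K M)
    (_ : Algebra K' M), IsScalarTower k K M ∧ IsScalarTower k K' M ∧ IsTP k K K' M

/-- **C6** (means of the numbers of primes of degree one).  Hypotheses: StA2 StC2 StC4 StC5.
PROOF.  C2 for `β = 1`: `S1 β v = N1 K v` (`{w // Deg1 w v}` is finite); A2 for `K`: `(s-1) ∑_w wt s w → 1`, and `(s-1) M → 0`.  Second: let `M` be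
from C5; by C4 `N1 M v = N1 K v N1 K' v` outside a finite set of `v`; on this finite set both sides are bounded (C2) and
`wt s v ≤ 1` (`log x ≤ x`), so it contributes `O(s-1)`; apply the first part to `M`. -/
def StC6 : Prop := ∀ (k K : Type) [Field k] [NumberField k] [Field K] [NumberField K] [Algebra k K],
  Tendsto (fun s : ℝ => (s - 1) * ∑' v : Pr k, (N1 K v : ℝ) * wt s v) (𝓝[>] 1) (𝓝 1) ∧
  ∀ (K' : Type) [Field K'] [NumberField K'] [Algebra k K'], IsField (K ⊗[k] K') →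
    Tendsto (fun s : ℝ => (s - 1) * ∑' v : Pr k, (N1 K v : ℝ) * N1 K' v * wt s v) (𝓝[>] 1) (𝓝 1)

/-- **C7** (Bessel's inequality, orthogonal family with norms at most `√D`).
PROOF.  Take `δ > 0` with `δ B² ≤ ε/2`, `D' = D + δ > 0`, `y_i = ∑' w c φ_i`, `G_ij = ∑' w φ_i φ_j`, `W = ∑' w`, `Y = ∑ y_i²`.  All series converge
absolutely (bounded times `w`).  `0 ≤ ∑' w (c - D'⁻¹ ∑_i y_i φ_i)² = ∑' w c² - 2 D'⁻¹ Y + D'⁻² ∑_ij y_i y_j G_ij`, eventually `G_ii ≤ D'`, so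
`0 ≤ B² W - D'⁻¹ Y + D'⁻² ∑_(i ≠ j) |y_i| |y_j| |G_ij|`.  `|y_i| ≤ |B| |E| W`.  So `Y ≤ D' B² W + o(1)`. -/
def StC7 : Prop := ∀ (V ι : Type) [Fintype ι] (w : ℝ → V → ℝ) (c : V → ℝ) (φ : ι → V → ℝ)
  (B D E : ℝ), 0 ≤ D → (∀ᶠ s : ℝ in 𝓝[>] 1, (∀ v, 0 ≤ w s v) ∧ Summable (w s)) →
  Tendsto (fun s => ∑' v, w s v) (𝓝[>] 1) (𝓝 1) → (∀ v, |c v| ≤ B) → (∀ i v, |φ i v| ≤ E) →
  (∀ i j, i ≠ j → Tendsto (fun s => ∑' v, w s v * (φ i v * φ j v)) (𝓝[>] 1) (𝓝 0)) →
  (∀ i, ∀ δ > 0, ∀ᶠ s : ℝ in 𝓝[>] 1, ∑' v, w s v * φ i v ^ 2 ≤ D + δ) →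
  ∀ ε > 0, ∀ᶠ s : ℝ in 𝓝[>] 1, ∑ i, (∑' v, w s v * (c v * φ i v)) ^ 2 ≤ D * B ^ 2 + ε

/-! ## Theorem 1 -/

/-- **C8** (base change).  Hypotheses: StA2 StC1 StC2 StC6 StC7.
PROOF.  Put `s' = s - 1`; `b log q q^(-s) = (b/q) wt s'`.  `α v = b v / q v` for `v ∉ R₀`, `0` otherwise, `FK R₀ b s = ∑' α v wt s' v`;
`β_i w = bK i w / q w` for `w ∉ R i`, `0` otherwise, `FK (R i) (bK i) s = ∑' β_i w wt s' w`; all are bounded (this gives the convergence, A2).
`S1 β_i v = N1 (K i) v α v` for all `v ∉ R₀` which are not below an element of `R i` (a finite set is excluded, C1), and both sides are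
bounded.  So C2 gives `FK (R i) (bK i) s = ∑' N_i α wt s' + O(1)`, `N_i = N1 (K i)`.  Write `α v = c + μ v`, `|μ v| ≤ B`, for `v ∉ R₀`, and `μ v = 0` for
`v ∈ R₀`.  With `w_(s') v = (s'-1) wt s' v`, `φ_i = N_i - 1`: `(s-2)(FK_i - FK₀) = c (∑' w N_i - ∑' w) + y_i + O(s'-1)`, `y_i = ∑' w μ φ_i`, and the first
term tends to `c (1 - 1) = 0` (C6, A2).  For `i ≠ j`: `∑' w φ_i φ_j → 1 - 1 - 1 + 1 = 0` (C6).  `φ_i² ≤ d N_i - 2 N_i + 1`, so
`∑' w φ_i² ≤ d - 1 + δ` eventually.  C7 with `D = d - 1`, `E = d + 1`, and `y_i` is bounded, so adding `o(1)` to `y_i` changes the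
sum of squares by `o(1)`.  (If `B < 0` then `Pr k` minus `R₀` is empty, impossible as `R₀` is finite; or use `|B|`, `B² = |B|²`.) -/
def StC8 : Prop := ∀ (k : Type) [Field k] [NumberField k] (b : Pr k → ℝ) (c B C : ℝ)
  (R₀ : Set (Pr k)), R₀.Finite → (∀ v, v ∉ R₀ → |b v - c * q v| ≤ B * q v) →
  ∀ (d : ℕ), 1 ≤ d → ∀ (ι : Type) [Fintype ι] (K : ι → Type) [∀ i, Field (K i)]
    [∀ i, NumberField (K i)] [∀ i, Algebra k (K i)] (bK : ∀ i, Pr (K i) → ℝ)
    (R : ∀ i, Set (Pr (K i))), (∀ i, (R i).Finite) → (∀ i, Module.finrank k (K i) ≤ d) →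
  (∀ i j, i ≠ j → IsField (K i ⊗[k] K j)) →
  (∀ i w, w ∉ R i → |bK i w| ≤ C * q w) →
  (∀ i w v, w ∉ R i → Deg1 w v → bK i w = b v) →
  (∀ s : ℝ, 2 < s → Summable (fun v : Pr k =>
    if v ∈ R₀ then 0 else b v * Real.log (q v) * (q v : ℝ) ^ (-s))) ∧
  (∀ i, ∀ s : ℝ, 2 < s → Summable (fun w : Pr (K i) =>
    if w ∈ R i then 0 else bK i w * Real.log (q w) * (q w : ℝ) ^ (-s))) ∧
  ∀ ε > 0, ∀ᶠ s : ℝ in 𝓝[>] 2,
    ∑ i, ((s - 2) * FK (R i) (bK i) s - (s - 2) * FK R₀ b s) ^ 2 ≤ (d - 1) * B ^ 2 + ε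

/-- **C9** (residue fields at primes of degree one).
PROOF.  `𝓞 k / v → 𝓞 K / w` is an isomorphism (as in C3), so the points of the curve correspond; the degree and the leading
coefficient do not change because `𝓞 k → 𝓞 K` is injective (`natDegree_map_eq_of_injective`, `leadingCoeff_map'`), and
`2 D ∈ w` iff `2 D ∈ v`; `a² - D ∈ w` for some `a ∈ 𝓞 K` iff for some `a ∈ 𝓞 k` (every class modulo `w` contains an element of
`𝓞 k`). -/
def StC9 : Prop := ∀ (k K : Type) [Field k] [NumberField k] [Field K] [NumberField K] [Algebra k K]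
  (w : Pr K) (v : Pr k), Deg1 w v →
  (∀ (D : 𝓞 k) (f : (𝓞 k)[X]),
    tr (algebraMap (𝓞 k) (𝓞 K) D) (f.map (algebraMap (𝓞 k) (𝓞 K))) w = tr D f v) ∧
  ∀ D : 𝓞 k, chi (algebraMap (𝓞 k) (𝓞 K) D) w = chi D v

/-- the exact Weil bound (Helper95/WS) for the curves `y² = f(x)` -/
def StWB : Prop := ∀ (k : Type) [Field k] [NumberField k] (v : Pr k) (f : (𝓞 k)[X]),
  1 ≤ f.natDegree → ¬ Bad f v → |(tr 1 f v : ℝ)| ≤ 2 * ((f.natDegree - 1) / 2 : ℕ) * √(q v)

/-- **C10** (base change for products of two hyperelliptic curves).  Hypotheses: StC8 StC9 StWB.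
PROOF.  C8 for `b v = bb 1 f g v`, `c = 2`, `B = (2 g_C)(2 g_C')`, `bK i w = bb 1 (f.map _) (g.map _) w`, `C = 2 + B`: `|tr tr| ≤ B q` by StWB over `k` and over
`K i` (the degrees of the mapped polynomials are the same), and `bK i w = b v` by C9 with `D = 1`. -/
def StC10 : Prop := ∀ (k : Type) [Field k] [NumberField k] (f g : (𝓞 k)[X]), 1 ≤ f.natDegree →
  1 ≤ g.natDegree → ∀ (R₀ : Set (Pr k)), R₀.Finite → (∀ v, Bad f v ∨ Bad g v → v ∈ R₀) →
  ∀ (d : ℕ), 1 ≤ d → ∀ (ι : Type) [Fintype ι] (K : ι → Type) [∀ i, Field (K i)]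
    [∀ i, NumberField (K i)] [∀ i, Algebra k (K i)] (R : ∀ i, Set (Pr (K i))),
  (∀ i, (R i).Finite) → (∀ i, Module.finrank k (K i) ≤ d) →
  (∀ i j, i ≠ j → IsField (K i ⊗[k] K j)) →
  (∀ i w, Bad (f.map (algebraMap (𝓞 k) (𝓞 (K i)))) w ∨
    Bad (g.map (algebraMap (𝓞 k) (𝓞 (K i)))) w → w ∈ R i) →
  ∀ ε > 0, ∀ᶠ s : ℝ in 𝓝[>] 2,
    ∑ i, ((s - 2) * FK (R i) (fun w => (bb 1 (f.map (algebraMap (𝓞 k) (𝓞 (K i))))
        (g.map (algebraMap (𝓞 k) (𝓞 (K i)))) w : ℝ)) s -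
      (s - 2) * FK R₀ (fun v => (bb 1 f g v : ℝ)) s) ^ 2 ≤
      (d - 1) * (2 * ((f.natDegree - 1) / 2 : ℕ) * (2 * ((g.natDegree - 1) / 2 : ℕ)) : ℝ) ^ 2 + ε

/-- **C11a** (meromorphic continuation makes the residue an integer).  Hypotheses: StA10.
PROOF.  A10 for `V = Pr K` and the numbers `if w ∈ R then 0 else b w`; `FK R b s` is the series there, `2 ≤ q w`. -/
def StC11a : Prop := ∀ (K : Type) [Field K] [NumberField K] (b : Pr K → ℝ) (R : Set (Pr K)),
  (∀ s : ℝ, 2 < s → Summable (fun w : Pr K =>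
    if w ∈ R then 0 else b w * Real.log (q w) * (q w : ℝ) ^ (-s))) →
  ∀ G : ℂ → ℂ, MeromorphicAt G 2 → (∀ᶠ s : ℝ in 𝓝[>] 2, G s =
    ((Real.exp (∑' w : Pr K, if w ∈ R then 0 else b w * (q w : ℝ) ^ (-s)) : ℝ) : ℂ)) →
  ∃ ρ : ℤ, Tendsto (fun s : ℝ => (s - 2) * FK R b s) (𝓝[>] 2) (𝓝 ρ)

/-- **C11b** (counting integers).
PROOF.  The finite sum of squares tends to `∑ (ρ i)²`, which is `≤ A + ε` for every `ε > 0`; each nonzero term is `≥ 1`. -/
def StC11b : Prop := ∀ (ι : Type) [Fintype ι] (x : ι → ℝ → ℝ) (ρ : ι → ℤ) (A : ℝ),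
  (∀ i, Tendsto (x i) (𝓝[>] 2) (𝓝 (ρ i))) →
  (∀ ε > 0, ∀ᶠ s : ℝ in 𝓝[>] 2, ∑ i, x i s ^ 2 ≤ A + ε) →
  ((Finset.univ.filter (fun i : ι => ρ i ≠ 0)).card : ℝ) ≤ A

/-! ## Theorem 2 -/

/-- **C12** (orthogonality of quadratic characters of different fields).  Hypotheses: StA4 StA5 StC1 StC2 StC4 StC5 StC9.
PROOF.  `E, E' ≠ 0` (otherwise `E ⊗ E' = 0` is a square).  `M` from C5, `E'' ∈ 𝓞 M` the product of the images of `E`, `E'`; it is not a square in `M`
(apply `e⁻¹`).  A4 for `M`: `(s-1) ∑_u chi E'' u wt s u → 0`, so by C2 for `M` over `k`: `(s-1) ∑_v S1 (chi E'') v wt s v → 0`.  Let `2 ∉ v` and `v` not exceptional in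
C4.  For `u` of degree one above `v`, `(w, w')` its pair, `q v ≤ q w ≤ q u` so `Deg1 u w`, `Deg1 u w'` and
`chi E'' u = chi E_M u chi E'_M u = chi E w chi E' w'` (A5 for `M`, C9 for `M` over `K` and over `K'`).  So `S1 (chi E'') v = S1 (chi E) v S1 (chi E') v`
(a finite sum over a product).  The remaining `v` form a finite set, where everything is bounded. -/
def StC12 : Prop := ∀ (k K K' : Type) [Field k] [NumberField k] [Field K] [NumberField K]
  [Field K'] [NumberField K'] [Algebra k K] [Algebra k K'] (E : 𝓞 K) (E' : 𝓞 K'),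
  IsField (K ⊗[k] K') → ¬ IsSquare ((E : K) ⊗ₜ[k] (E' : K')) →
  Tendsto (fun s : ℝ => (s - 1) * ∑' v : Pr k, S1 (chi E) v * S1 (chi E') v * wt s v)
    (𝓝[>] 1) (𝓝 0)

/-- **C13** (twists over varying fields).  Hypotheses: StA2 StA5 StC1 StC2 StC6 StC7 StC9 StC12 StWB.
PROOF.  `s' = s - 1`, `β_i w = bb (E i) f g w / q w` for `w ∉ R i`, `0` otherwise (`f`, `g` mapped to `K i`).  For `w ∉ R i` (good, `2, E i ∉ w`):
`bb (E i) f g w = 2 q + chi (E i) w · tr 1 f w · tr 1 g w` (A5), bounded by `(2 + B) q` (StWB), so the series converge and C2 applies.  For `v` outside a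
finite set (C1) all `w` above `v` are `∉ R i`, and for `Deg1 w v` C9 gives `β_i w = 2 + chi (E i) w · c_v`, `c_v = tr 1 f v · tr 1 g v / q v`
(put `c_v = 0` if `v` is bad for `f` or `g`): `S1 β_i v = 2 N_i(v) + c_v φ_i(v)`, `φ_i = S1 (chi (E i))`, `|φ_i| ≤ N_i ≤ d`.  So
`(s-2) FK_i(s) = 2 (s'-1) ∑' N_i wt s' + y_i + O(s'-1)`, `y_i = ∑' w c φ_i`, `w_(s') v = (s'-1) wt s' v`, and the first term tends to `2` (C6).  `∑' w φ_i φ_j → 0` for
`i ≠ j` (C12), `∑' w φ_i² ≤ d ∑' w N_i → d`.  C7 with `D = d`. -/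
def StC13 : Prop := ∀ (k : Type) [Field k] [NumberField k] (f g : (𝓞 k)[X]), 1 ≤ f.natDegree →
  1 ≤ g.natDegree → ∀ (d : ℕ) (ι : Type) [Fintype ι] (K : ι → Type) [∀ i, Field (K i)]
    [∀ i, NumberField (K i)] [∀ i, Algebra k (K i)] (E : ∀ i, 𝓞 (K i)) (R : ∀ i, Set (Pr (K i))),
  (∀ i, (R i).Finite) → (∀ i, Module.finrank k (K i) ≤ d) →
  (∀ i j, i ≠ j → IsField (K i ⊗[k] K j) ∧ ¬ IsSquare ((E i : K i) ⊗ₜ[k] (E j : K j))) →
  (∀ i w, Bad (f.map (algebraMap (𝓞 k) (𝓞 (K i)))) w ∨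
    Bad (g.map (algebraMap (𝓞 k) (𝓞 (K i)))) w ∨ E i ∈ w.asIdeal → w ∈ R i) →
  (∀ i, ∀ s : ℝ, 2 < s → Summable (fun w : Pr (K i) => if w ∈ R i then 0 else
    (bb (E i) (f.map (algebraMap (𝓞 k) (𝓞 (K i)))) (g.map (algebraMap (𝓞 k) (𝓞 (K i)))) w : ℝ) *
      Real.log (q w) * (q w : ℝ) ^ (-s))) ∧
  ∀ ε > 0, ∀ᶠ s : ℝ in 𝓝[>] 2,
    ∑ i, ((s - 2) * FK (R i) (fun w => (bb (E i) (f.map (algebraMap (𝓞 k) (𝓞 (K i))))
        (g.map (algebraMap (𝓞 k) (𝓞 (K i)))) w : ℝ)) s - 2) ^ 2 ≤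
      d * (2 * ((f.natDegree - 1) / 2 : ℕ) * (2 * ((g.natDegree - 1) / 2 : ℕ)) : ℝ) ^ 2 + ε

end

end Pool.Agent.Helper96.BC
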